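import Pool.Agent.helper43.BMH.Spec

set_option autoImplicit false

namespace Pool.Agent.helper43.BMH

open scoped ENNReal

theorem GAL_mono {s : ℕ} {β β' : ℝ} (h : β ≤ β') (hG : Good s β) : Good s β' := by
  intro lam hl B η hη
  obtain ⟨δ, hδ, k₀, H⟩ := hG lam hl B η hη
  refine ⟨δ, hδ, k₀, fun k hk hK => ?_⟩
  obtain ⟨ι, i1, i2, Ω, i3, i4, F, h1, h2, h3⟩ := H k hk hK
  refine ⟨ι, i1, i2, Ω, i3, i4, F, h1, h2, fun D hD z hz => (h3 D hD z hz).trans ?_⟩
  apply Real.exp_le_exp.2
  have h4 : (0 : ℝ) ≤ (Fintype.card ι : ℝ) := Nat.cast_nonneg _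
  nlinarith

theorem t_gal (h0 : GD0) (h : STP) : GAL := by
  obtain ⟨c, hc, H⟩ := h
  have key : ∀ s : ℕ, Good s (max (Real.log 2 - s * c) (9 / 200)) := by
    intro s
    induction s with
    | zero => exact GAL_mono (by push_cast; exact (by linarith : Real.log 2 ≤ Real.log 2 - 0 * c).trans (le_max_left _ _)) h0
    | succ s ih =>
      refine GAL_mono ?_ (H s _ ih)
      apply max_le
      · rcases le_total (Real.log 2 - s * c) (9 / 200) with h1 | h1
        · rw [max_eq_right h1]
          exact (by linarith : (9 : ℝ) / 200 - c ≤ 9 / 200).trans (le_max_right _ _)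
        · rw [max_eq_left h1]
          refine le_trans (le_of_eq ?_) (le_max_left _ _)
          push_cast
          ring
      · exact le_max_right _ _
  obtain ⟨s, hs⟩ := exists_nat_ge ((Real.log 2 - 9 / 200) / c)
  refine ⟨s, GAL_mono ?_ (key s)⟩
  apply max_le _ (le_refl _)
  rw [div_le_iff₀ hc] at hs
  linarith

end Pool.Agent.helper43.BMH
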