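import Pool.Agent.helper43.BMH.Spec

set_option autoImplicit false

namespace Pool.Agent.helper43.BMH

open scoped ENNReal

theorem ROW_s (s : ℤˣ) : (((s : ℤˣ) : ℤ) : ℝ) = 1 ∨ (((s : ℤˣ) : ℤ) : ℝ) = -1 := by
  rcases Int.units_eq_one_or s with h | h
  · left
    rw [h]
    norm_num
  · right
    rw [h]
    norm_num

theorem ROW_ss (s : ℤˣ) : (((s : ℤˣ) : ℤ) : ℝ) * (((s : ℤˣ) : ℤ) : ℝ) = 1 := by
  rcases ROW_s s with h | h <;> rw [h] <;> norm_num

theorem ROW_had {ι : Type} [Fintype ι] [DecidableEq ι] (T : Matrix ι ι ℝ) (P : SP ι)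
    (h : IsHad T) : IsHad (rowAct P T) := by
  obtain ⟨h1, h2⟩ := h
  constructor
  · intro i j
    unfold rowAct
    rcases ROW_s (P.2 i) with h | h <;> rcases h1 (P.1 i) j with h' | h' <;> rw [h, h'] <;> norm_num
  · ext i k
    have h3 := congrFun (congrFun h2 (P.1 i)) (P.1 k)
    rw [Matrix.mul_apply] at h3 ⊢
    have h4 : ∑ j, rowAct P T i j * (rowAct P T).transpose j k =
        ((((P.2 i : ℤˣ) : ℤ) : ℝ) * (((P.2 k : ℤˣ) : ℤ) : ℝ)) *
          ∑ j, T (P.1 i) j * T.transpose j (P.1 k) := by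
      rw [Finset.mul_sum]
      refine Finset.sum_congr rfl fun j _ => ?_
      show (((P.2 i : ℤˣ) : ℤ) : ℝ) * T (P.1 i) j * ((((P.2 k : ℤˣ) : ℤ) : ℝ) * T (P.1 k) j) =
        ((((P.2 i : ℤˣ) : ℤ) : ℝ) * (((P.2 k : ℤˣ) : ℤ) : ℝ)) * (T (P.1 i) j * T (P.1 k) j)
      ring
    rw [h4, h3]
    simp only [Matrix.smul_apply, smul_eq_mul]
    by_cases hik : i = k
    · subst hik
      rw [Matrix.one_apply_eq, Matrix.one_apply_eq, ROW_ss, one_mul]
    · rw [Matrix.one_apply_ne hik, Matrix.one_apply_ne (fun h => hik (P.1.injective h)), mul_zero,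
        mul_zero]

theorem ROW_near {ι : Type} [Fintype ι] (T : Matrix ι ι ℝ) (P : SP ι) (lam D : ℝ)
    (y : ι → ℤˣ) (z : ι → ℤ) : near (rowAct P T) lam D y z ↔ near T lam D y (act P z) := by
  unfold near
  have h : ∑ i, ((rowAct P T).mulVec (sv y) i / Real.sqrt (Fintype.card ι) - lam * (z i : ℝ)) ^ 2 =
      ∑ i, (T.mulVec (sv y) i / Real.sqrt (Fintype.card ι) - lam * (act P z i : ℝ)) ^ 2 := by
    rw [← Equiv.sum_comp P.1 (fun i => (T.mulVec (sv y) i / Real.sqrt (Fintype.card ι) -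
      lam * (act P z i : ℝ)) ^ 2)]
    refine Finset.sum_congr rfl fun i _ => ?_
    have h1 : (rowAct P T).mulVec (sv y) i = (((P.2 i : ℤˣ) : ℤ) : ℝ) * T.mulVec (sv y) (P.1 i) := by
      show ∑ j, (((P.2 i : ℤˣ) : ℤ) : ℝ) * T (P.1 i) j * sv y j =
        (((P.2 i : ℤˣ) : ℤ) : ℝ) * ∑ j, T (P.1 i) j * sv y j
      rw [Finset.mul_sum]
      exact Finset.sum_congr rfl fun j _ => by ring
    have h2 : (act P z (P.1 i) : ℝ) = (((P.2 i : ℤˣ) : ℤ) : ℝ) * (z i : ℝ) := by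
      unfold act
      rw [Equiv.symm_apply_apply]
      push_cast
      rfl
    rw [h1, h2]
    rcases ROW_s (P.2 i) with h | h
    · rw [h, one_mul, one_mul]
    · rw [h]
      ring
  rw [h]

theorem t_row : ROW := by
  intro ι _ _ T P
  refine ⟨ROW_had T P, fun lam D z => ?_⟩
  unfold cnt
  classical
  refine congrArg Finset.card ?_
  ext y
  rw [Finset.mem_filter, Finset.mem_filter, ROW_near]

end Pool.Agent.helper43.BMH
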